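import Mathlib
import Pool.Agent.H26.Kantor

namespace Pool.Agent.Results.MP_0f105f_co.NonlinearTGQ

variable {P L : Type}

/-- two points are collinear if some line is incident with both -/
def Col (I : P → L → Prop) (p q : P) : Prop := ∃ l, I p l ∧ I q l

/-- generalized quadrangle -/
def IsGQ (I : P → L → Prop) : Prop :=
  (∀ p q l m, p ≠ q → I p l → I q l → I p m → I q m → l = m) ∧
  (∀ l, ∃ p q r, p ≠ q ∧ p ≠ r ∧ q ≠ r ∧ I p l ∧ I q l ∧ I r l) ∧
  (∀ p, ∃ l m n, l ≠ m ∧ l ≠ n ∧ m ≠ n ∧ I p l ∧ I p m ∧ I p n) ∧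
  (∀ p l, ¬ I p l → ∃! q, I q l ∧ Col I p q)

/-- an elation about `x`: an automorphism that is the identity, or fixes every line through `x`
and no point not collinear with `x` -/
def IsElation (I : P → L → Prop) (x : P) (g : Equiv.Perm P × Equiv.Perm L) : Prop :=
  (∀ p l, I (g.1 p) (g.2 l) ↔ I p l) ∧
  (g = 1 ∨ ((∀ l, I x l → g.2 l = l) ∧ ∀ p, ¬ Col I p x → g.1 p ≠ p))

/-- translation generalized quadrangle with base point `x` and translation group `G` -/
def IsTGQ (I : P → L → Prop) (x : P) (G : Subgroup (Equiv.Perm P × Equiv.Perm L)) : Prop :=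
  IsGQ I ∧ (∀ g ∈ G, IsElation I x g) ∧
  (∀ p q, ¬ Col I p x → ¬ Col I q x → ∃! g : G, g.1.1 p = q) ∧
  (∀ g h : G, g * h = h * g)

/-- the kernel: endomorphisms of `G` mapping each `A_l` (stabiliser of the line `M` through `y`
meeting `l`) and each `A_l^*` (stabiliser of the point `z = l ∩ M`) into itself -/
def InKernel (I : P → L → Prop) (x y : P) (G : Subgroup (Equiv.Perm P × Equiv.Perm L))
    (α : G →* G) : Prop :=
  ∀ l M z, I x l → I y M → I z l → I z M →
    (∀ g : G, g.1.2 M = M → (α g).1.2 M = M) ∧ (∀ g : G, g.1.1 z = z → (α g).1.1 z = z)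

open Pool.Agent.H26.Kantor in
theorem result : ∃ (P L : Type) (I : P → L → Prop) (x y : P)
    (G : Subgroup (Equiv.Perm P × Equiv.Perm L)), IsTGQ I x G ∧ ¬ Col I y x ∧
    ∃ α : G →* G, InKernel I x y G α ∧ (∃ g, α g ≠ 1) ∧
      ¬ ∃ β : G →* G, InKernel I x y G β ∧ α.comp β = MonoidHom.id G ∧
        β.comp α = MonoidHom.id G := by
  let φ : Multiplicative G0 ≃* T.range := MonoidHom.ofInjective T_inj
  have hφ : ∀ h, (φ h).1 = T h := fun _ => rfl
  have ncol : ∀ p, ¬ Col Inc p .inf → ∃ g, p = .aff g := by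
    rintro (g | ⟨i, ζ⟩ | _) h
    · exact ⟨g, rfl⟩
    · exact (h col_ti).elim
    · exact (h ⟨.thr none, trivial, trivial⟩).elim
  let α : T.range →* T.range :=
    φ.toMonoidHom.comp ((AddMonoidHom.toMultiplicative mulX).comp φ.symm.toMonoidHom)
  have hα : ∀ h, α (φ h) = φ (Multiplicative.ofAdd (mulX h.toAdd)) := fun h => by simp [α]
  refine ⟨Pt, Ln, Inc, .inf, .aff 0, T.range,
    ⟨⟨two_points, line_three, point_three, gq_axiom⟩, ?_, ?_, ?_⟩, col_ai, α, ?_, ?_, ?_⟩
  · rintro _ ⟨h, rfl⟩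
    refine ⟨inc_t _, ?_⟩
    by_cases h1 : h = 1
    · left; rw [h1, map_one]
    · right
      constructor
      · rintro (_ | _) hl
        · exact hl.elim
        · rfl
      · intro p hp
        obtain ⟨g, rfl⟩ := ncol p hp
        simpa [T1, tp] using h1
  · intro p q hp hq
    obtain ⟨g, rfl⟩ := ncol p hp
    obtain ⟨g', rfl⟩ := ncol q hq
    refine ⟨φ (Multiplicative.ofAdd (g' - g)), by
      simp only [hφ, T1, tp, toAdd_ofAdd, add_sub_cancel], ?_⟩
    intro k hk
    obtain ⟨k, rfl⟩ := φ.surjective k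
    simp only [hφ, T1, tp, Pt.aff.injEq] at hk
    rw [← hk]; simp
  · intro g h
    obtain ⟨g, rfl⟩ := φ.surjective g
    obtain ⟨h, rfl⟩ := φ.surjective h
    rw [← map_mul, ← map_mul, mul_comm]
  · rintro (_ | j) (⟨i, η, ζ⟩ | _) (_ | ⟨k, ζ'⟩ | _) h1 h2 h3 h4 <;>
      simp only [Inc] at h1 h2 h3 h4
    constructor
    · intro g hg
      obtain ⟨g, rfl⟩ := φ.surjective g
      simp only [hα, hφ, T2, tl, Ln.cos.injEq, true_and, add_eq_left, toAdd_ofAdd] at hg ⊢
      rw [nu_mulX, lam_mulX, hg.1, hg.2]; simp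
    · intro g hg
      obtain ⟨g, rfl⟩ := φ.surjective g
      simp only [hα, hφ, T1, tp, Pt.tan.injEq, true_and, add_eq_left, toAdd_ofAdd] at hg ⊢
      rw [lam_mulX, hg]; simp
  · refine ⟨φ (Multiplicative.ofAdd (1, 0, 0)), ?_⟩
    rw [hα, Ne, map_eq_one_iff _ φ.injective]
    intro e
    have := congrArg (fun g : Multiplicative G0 => g.toAdd.1) e
    simp [mulX] at this
  · rintro ⟨β, -, h, -⟩
    have e := DFunLike.congr_fun h (φ (Multiplicative.ofAdd (1, 0, 0)))
    obtain ⟨g, hg⟩ := φ.surjective (β (φ (Multiplicative.ofAdd (1, 0, 0))))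
    rw [MonoidHom.comp_apply, ← hg, hα, MonoidHom.id_apply] at e
    have := congrArg (fun g : Multiplicative G0 => Polynomial.eval 0 g.toAdd.1) (φ.injective e)
    simp [mulX] at this

end Pool.Agent.Results.MP_0f105f_co.NonlinearTGQ
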